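import Pool.Agent.Helper5.WD.Stmts

/-! Restriction of colourings in which two vertices share a colour. -/

set_option autoImplicit false

open Finset Pool.Agent.Helper8.UN Pool.Agent.Helper5.FV

namespace Pool.Agent.Helper5.WD

lemma gmon_mem {n : ℕ} (E : Finset (Finset (Fin n))) (W : Finset (Fin n)) (k : ℕ)
    (f : Fin n → ℕ) : f ∈ CC E W k ↔
      (∀ v, f v ∈ (if v ∈ W then Finset.Icc 1 k else ({0} : Finset ℕ))) ∧ Prp E W f := by
  classical
  unfold CC
  rw [Finset.mem_filter, Fintype.mem_piFinset]

lemma gmon_upd {n : ℕ} (E : Finset (Finset (Fin n))) (W : Finset (Fin n)) (k : ℕ)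
    (z : Fin n) (f : Fin n → ℕ) (hf : f ∈ CC E W k) :
    Function.update f z 0 ∈ CC E (W.erase z) k := by
  classical
  rw [gmon_mem] at hf ⊢
  obtain ⟨h1, h2⟩ := hf
  refine ⟨?_, ?_⟩
  · intro v
    by_cases hv : v = z
    · subst hv
      simp
    · have := h1 v
      rw [Function.update_of_ne hv]
      simp only [Finset.mem_erase, ne_eq, hv, not_false_eq_true, true_and]
      exact this
  · intro e he hW
    have hW' : e ⊆ W := hW.trans (Finset.erase_subset _ _)
    obtain ⟨u, hu, v, hv, huv⟩ := h2 e he hW'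
    have hu' : u ≠ z := Finset.ne_of_mem_erase (hW hu)
    have hv' : v ≠ z := Finset.ne_of_mem_erase (hW hv)
    refine ⟨u, hu, v, hv, ?_⟩
    rw [Function.update_of_ne hu', Function.update_of_ne hv']
    exact huv

lemma gmon_inj {n : ℕ} (z z' : Fin n) (hz : z ≠ z') (f g : Fin n → ℕ) (hf : f z = f z')
    (hg : g z = g z') (h : Function.update f z 0 = Function.update g z 0) : f = g := by
  have key : ∀ v, v ≠ z → f v = g v := by
    intro v hv
    have := congrFun h v
    rw [Function.update_of_ne hv, Function.update_of_ne hv] at this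
    exact this
  funext v
  by_cases hv : v = z
  · rw [hv, hf, hg]
    exact key z' hz.symm
  · exact key v hv

lemma gmon_ss {n : ℕ} (E : Finset (Finset (Fin n))) (W : Finset (Fin n)) (k : ℕ)
    (f : Fin n → ℕ) : f ∈ SS E W k ↔
      f ∈ CC E W k ∧ ∀ i ∈ Finset.Icc 1 k, ∃ v ∈ W, f v = i := by
  unfold SS
  simp only [Finset.mem_filter]

theorem st_GMON (h1 : ST_GF1) : ST_GMON := by
  classical
  intro n D k0 k E W z z' hT hG hk hz hz' hne
  have hdis : Disjoint (W.erase z) ({z} : Finset (Fin n)) := by
    rw [Finset.disjoint_singleton_right]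
    exact Finset.notMem_erase z W
  have hU : (W.erase z) ∪ ({z} : Finset (Fin n)) = W := by
    rw [Finset.union_comm, ← Finset.insert_eq, Finset.insert_erase hz]
  obtain ⟨a1, _, a3⟩ := h1 n D k0 k E (W.erase z) {z} hT hG hk hdis
  rw [hU, Finset.card_singleton, pow_one] at a1 a3
  refine ⟨le_trans (Nat.mul_le_mul_left _ ?_) a1, le_trans (Nat.mul_le_mul_left _ ?_) a3⟩
  · unfold PP
    refine Finset.card_le_card_of_injOn (fun f => Function.update f z 0) ?_ ?_
    · intro f hf
      have hf' := Finset.mem_filter.mp (Finset.mem_coe.mp hf)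
      exact Finset.mem_coe.mpr (gmon_upd E W k z f hf'.1)
    · intro f hf g hg h
      have hf' := Finset.mem_filter.mp (Finset.mem_coe.mp hf)
      have hg' := Finset.mem_filter.mp (Finset.mem_coe.mp hg)
      exact gmon_inj z z' hne f g hf'.2 hg'.2 h
  · unfold AA
    refine Finset.card_le_card_of_injOn (fun f => Function.update f z 0) ?_ ?_
    · intro f hf
      have hf' := Finset.mem_filter.mp (Finset.mem_coe.mp hf)
      have hs' := (gmon_ss E W k f).mp hf'.1
      refine Finset.mem_coe.mpr ?_
      rw [gmon_ss]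
      refine ⟨gmon_upd E W k z f hs'.1, ?_⟩
      intro i hi
      obtain ⟨v, hv, hvi⟩ := hs'.2 i hi
      by_cases hvz : v = z
      · refine ⟨z', Finset.mem_erase.mpr ⟨hne.symm, hz'⟩, ?_⟩
        show Function.update f z 0 z' = i
        rw [Function.update_of_ne hne.symm, ← hf'.2, ← hvz]
        exact hvi
      · refine ⟨v, Finset.mem_erase.mpr ⟨hvz, hv⟩, ?_⟩
        show Function.update f z 0 v = i
        rw [Function.update_of_ne hvz]
        exact hvi
    · intro f hf g hg h
      have hf' := Finset.mem_filter.mp (Finset.mem_coe.mp hf)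
      have hg' := Finset.mem_filter.mp (Finset.mem_coe.mp hg)
      exact gmon_inj z z' hne f g hf'.2 hg'.2 h

end Pool.Agent.Helper5.WD
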